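import Pool.Agent.R210.W16

/-!
# A Hölder continuous vorticity direction gives integrability beyond the energy class

Weak solutions of the Navier-Stokes equations in the whole space `ℝ³` (unit viscosity, no force)
whose vorticity direction is Hölder continuous with any exponent `β > 0` belong to
`L²(0,T; L^q)` for every `q < 2 (3 - β) / (1 - β)`. This number is larger than `6`, so that there
are exponents with `2 / s + 3 / q < 3 / 2`.

The proof has two parts. (1) At almost every time the vorticity `ω` is a renormalized divergence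
free field: in a ball in which it is nearly parallel to a unit vector `e` also `sign (e · ω) ω` is
divergence free. This follows from a bound of `∇ω_δ / (1 + |ω_δ|²)^(1/2)` in `L²`, uniform in the
mollification parameter `δ`. (2) The flux of `sign (e · ω) ω` through small balls is conserved along
chains of balls in the direction of the vorticity, up to errors controlled by the Hölder condition.
Hence `∫ |ω|` over a ball of radius `ρ` is at most a constant times `ρ^((3 + β) / 2) ‖ω‖₂`, and an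
interpolation between this bound and `∇u ∈ L²` gives the result.
-/

open MeasureTheory Set
open scoped ENNReal ContDiff InnerProductSpace

namespace Pool.Agent.Results.MP_1c98a8_an.HoelderDirectionFull

/-- Three dimensional Euclidean space. -/
abbrev R3 := EuclideanSpace ℝ (Fin 3)

/-- The `i`-th vector of the standard basis. -/
noncomputable def e (i : Fin 3) : R3 := EuclideanSpace.single i 1

/-- Divergence free test fields: smooth, with compact support. -/
structure IsTest (φ : R3 → R3) : Prop where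
  smooth : ContDiff ℝ ∞ φ
  compact : HasCompactSupport φ
  divfree : ∀ x, ∑ i, fderiv ℝ φ x (e i) i = 0

/-- The Laplacian of a vector field. -/
noncomputable def lap (φ : R3 → R3) (x : R3) : R3 :=
  ∑ k, fderiv ℝ (fun z => fderiv ℝ φ z (e k)) x (e k)

/-- `u` is a weak solution of the Navier-Stokes equations `∂ₜu + (u·∇)u - Δu + ∇p = 0`, `div u = 0`
in `(0,T) × ℝ³`, with the weak gradient `G`, that is `G t x i j = ∂ᵢuⱼ(t,x)`:
* `u ∈ L^∞(0,T; L²)` and `∇u = G ∈ L²(0,T; L²)`, `div u = 0`;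
* the equation holds in the sense of distributions: it is tested with the fields `θ(t) φ(x)`, where
  `θ` is a smooth function with compact support in `(0,T)` and `φ` is a divergence free test field.
Neither an energy inequality nor an initial value is required, so that every Leray-Hopf weak
solution is a weak solution in this sense. -/
structure IsWeakSolution (T : ℝ) (u : ℝ → R3 → R3) (G : ℝ → R3 → Fin 3 → Fin 3 → ℝ) : Prop where
  meas : AEStronglyMeasurable (fun z : ℝ × R3 => u z.1 z.2)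
    ((volume.restrict (Ioo 0 T)).prod volume)
  grad_meas : ∀ i j, AEStronglyMeasurable (fun z : ℝ × R3 => G z.1 z.2 i j)
    ((volume.restrict (Ioo 0 T)).prod volume)
  bdd : ∃ M : ℝ, ∀ᵐ t ∂volume.restrict (Ioo 0 T), ∫⁻ x, ‖u t x‖ₑ ^ 2 ≤ ENNReal.ofReal M
  grad_sq : ∫⁻ t in Ioo 0 T, ∫⁻ x, ∑ i, ∑ j, ‖G t x i j‖ₑ ^ 2 < ⊤
  grad : ∀ᵐ t ∂volume.restrict (Ioo 0 T), ∀ ψ : R3 → ℝ, ContDiff ℝ ∞ ψ → HasCompactSupport ψ →
    ∀ i j, ∫ x, u t x j * fderiv ℝ ψ x (e i) = -∫ x, G t x i j * ψ x
  div : ∀ᵐ t ∂volume.restrict (Ioo 0 T), ∀ᵐ x, ∑ i, G t x i i = 0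
  eqn : ∀ φ, IsTest φ → ∀ θ : ℝ → ℝ, ContDiff ℝ ∞ θ → HasCompactSupport θ →
    tsupport θ ⊆ Ioo 0 T →
    ∫ t in Ioo 0 T, (deriv θ t * (∫ x, ⟪u t x, φ x⟫_ℝ)
      + θ t * ∫ x, (⟪u t x, fderiv ℝ φ x (u t x)⟫_ℝ + ⟪u t x, lap φ x⟫_ℝ)) = 0

/-- The vorticity `curl u`, in terms of the gradient `G t x i j = ∂ᵢuⱼ(t,x)`. -/
noncomputable def vorticity (G : ℝ → R3 → Fin 3 → Fin 3 → ℝ) (t : ℝ) (x : R3) : R3 :=
  !₂[G t x 1 2 - G t x 2 1, G t x 2 0 - G t x 0 2, G t x 0 1 - G t x 1 0]

/-- The direction of the field `w` is `β`-Hölder continuous in space: the sine of the angle between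
`w(t,x)` and `w(t,y)` is at most `c |x - y|^β` (for almost all `t`, `x`, `y` such that both vectors
are not zero). -/
def HoelderDirection (T c β : ℝ) (w : ℝ → R3 → R3) : Prop :=
  ∀ᵐ t ∂volume.restrict (Ioo 0 T), ∀ᵐ x, ∀ᵐ y, w t x ≠ 0 → w t y ≠ 0 →
    Real.sin (InnerProductGeometry.angle (w t x) (w t y)) ≤ c * ‖x - y‖ ^ β

/-- Let `u` be a weak solution of the Navier-Stokes equations in `(0,T) × ℝ³` whose vorticity
direction is `β`-Hölder continuous, where `0 < β < 1`. Then `u ∈ L²(0,T; L^q)` for every `q` with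
`2 < q < 2 (3 - β) / (1 - β)`. In particular there are exponents `s, q` with
`2 / s + 3 / q < 3 / 2` such that `u ∈ L^s(0,T; L^q)`. -/
theorem result (T : ℝ) (u : ℝ → R3 → R3) (G : ℝ → R3 → Fin 3 → Fin 3 → ℝ)
    (hu : IsWeakSolution T u G) (c β : ℝ) (hβ0 : 0 < β) (hβ1 : β < 1)
    (hw : HoelderDirection T c β (vorticity G)) :
    (∀ q : ℝ, 2 < q → q < 2 * (3 - β) / (1 - β) →
      ∫⁻ t in Ioo 0 T, eLpNorm (u t) (ENNReal.ofReal q) volume ^ (2 : ℝ) < ⊤) ∧
    ∃ s q : ℝ, 1 ≤ s ∧ 3 ≤ q ∧ 2 / s + 3 / q < 3 / 2 ∧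
      ∫⁻ t in Ioo 0 T, eLpNorm (u t) (ENNReal.ofReal q) volume ^ s < ⊤ := by
  obtain ⟨v, H, hS, hae⟩ := Pool.Agent.R210.ws_of hu.meas hu.grad_meas hu.bdd hu.grad_sq hu.grad
    hu.div fun φ h1 h2 h3 θ hθ hc hs => hu.eqn φ ⟨h1, h2, h3⟩ θ hθ hc hs
  have hcoh : ∀ᵐ t, t ∈ Ioo 0 T → ∀ᵐ p, ∀ᵐ y,
      Pool.Agent.R210.Coh (Pool.Agent.R210.om (H t)) (max c 1) β p y := by
    rw [← ae_restrict_iff' measurableSet_Ioo]
    filter_upwards [hw, hae] with t h1 h2
    have h3 : ∀ᵐ x, vorticity G t x = Pool.Agent.R210.om (H t) x := by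
      filter_upwards [h2.2] with x hx
      unfold vorticity Pool.Agent.R210.om
      simp_rw [hx]
    filter_upwards [h1, h3] with x hx1 hx2
    filter_upwards [hx1, h3] with y hy1 hy2
    refine Pool.Agent.R210.coh_of_angle ?_
    rw [← hx2, ← hy2]
    exact hy1
  have key : ∀ q : ℝ, 2 < q → q < 2 * (3 - β) / (1 - β) →
      ∫⁻ t in Ioo 0 T, eLpNorm (u t) (ENNReal.ofReal q) volume ^ (2 : ℝ) < ⊤ := by
    intro q hq hq2
    refine lt_of_le_of_lt (le_of_eq ?_)
      (hS.higher hβ0 hβ1 (le_max_right c 1) hq hq2 hcoh)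
    refine lintegral_congr_ae ?_
    filter_upwards [hae] with t ht
    rw [eLpNorm_congr_ae ht.1, ENNReal.rpow_two]
  refine ⟨key, 2, (6 - 4 * β) / (1 - β), by norm_num, ?_, ?_, key _ ?_ ?_⟩
  · rw [le_div_iff₀ (by linarith)]; linarith
  · rw [div_div_eq_mul_div]
    have h1 : 0 < 6 - 4 * β := by linarith
    have h2 : 3 * (1 - β) / (6 - 4 * β) < 1 / 2 := by
      rw [div_lt_div_iff₀ h1 (by norm_num)]; linarith
    linarith
  · rw [lt_div_iff₀ (by linarith)]; linarith
  · exact div_lt_div_of_pos_right (by linarith) (by linarith)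

end Pool.Agent.Results.MP_1c98a8_an.HoelderDirectionFull
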